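import Pool.Agent.Odp3.Defs
import Pool.Agent.Odp3.Pt.Bdd
import Pool.Agent.Odp3.Alg.Sep

open scoped ContDiff Topology ENNReal NNReal WithZero
open Set MeasureTheory Filter MvPolynomial Pool.Agent.ODP

namespace Pool.Agent.Odp3

theorem Germ.sheets_d_pos {n d : ℕ} {B : Type} [CommRing B] [Algebra ℂ B] (G : Germ n d B)
    (_x : Pt B) : 0 < d := by
  rcases Nat.eq_zero_or_pos d with rfl | h
  · exfalso
    have h1 := G.cf_spec 1
    rw [Finset.univ_eq_empty, Finset.sum_empty, mul_one] at h1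
    exact G.D_ne (G.inj (h1.trans (map_zero _).symm))
  · exact h

/-- the fibre over a point outside of the discriminant. -/
theorem Germ.sheets_fibre {n d : ℕ} {B : Type} [CommRing B] [Algebra ℂ B] (G : Germ n d B)
    (x : Pt B) {w : Fin n → ℂ} (hw : eval w G.D ≠ 0) :
    ∃ S : Finset (Pt B), (∀ χ, χ ∈ S ↔ proj G.y χ = w) ∧ S.card = d ∧
      ∀ b, ∑ χ ∈ S, χ b = eval w (G.tr b) := by
  have hd := G.sheets_d_pos x
  have hc := G.card w hw
  have hfin : {χ : Pt B | proj G.y χ = w}.Finite :=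
    Set.finite_of_ncard_pos (by rw [hc]; exact hd)
  have hcard : hfin.toFinset.card = d := (Set.ncard_eq_toFinset_card _ hfin).symm.trans hc
  have hS : ∀ χ, χ ∈ hfin.toFinset ↔ proj G.y χ = w := fun χ => by simp
  exact ⟨hfin.toFinset, hS, hcard, fun b => G.tr_pt w hw _ hS b⟩

theorem sheets_norm_lt {n : ℕ} {w : Fin n → ℂ} {δ : ℝ} (hδ : 0 < δ) (h : nq w < δ ^ 2) :
    ‖w‖ < δ := by
  rw [pi_norm_lt_iff hδ]
  intro j
  refine (norm_le_sqrt_nq w j).trans_lt ?_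
  rwa [Real.sqrt_lt' hδ]

/-- the number of sheets near `x`. -/
theorem IsSep.sheets {n d : ℕ} {B : Type} [CommRing B] [Algebra ℂ B]
    {G : Germ n d B} {x : Pt B} {sg : B} {m : ℕ} (hm : 1 ≤ m) (h : IsSep G x m sg) :
    ∃ e : ℕ, IsNum G sg e := by
  classical
  obtain ⟨ρ₁, C, hρ₁, hC⟩ := h.dich hm
  set τ : (Fin n → ℂ) → ℂ := fun w => eval w (G.tr sg) with hτ
  have hcont : Continuous τ := MvPolynomial.continuous_eval _
  obtain ⟨δ, hδ, hδτ⟩ := Metric.continuousAt_iff.1 (hcont.continuousAt (x := 0)) (1 / 4)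
    (by norm_num)
  set C' : ℝ := |C| + 1 with hC'
  have hC'0 : 0 < C' := by positivity
  set ρ₂ : ℝ := 1 / (4 * (d + 1) * C') with hρ₂
  have hρ₂0 : 0 < ρ₂ := by positivity
  set ρ : ℝ := min (min ρ₁ δ) (min 1 ρ₂) with hρ
  have hρ0 : 0 < ρ := by positivity
  have key : ∀ w : Fin n → ℂ, nq w < ρ ^ 2 → eval w G.D ≠ 0 →
      ‖τ 0 - ({χ : Pt B | proj G.y χ = w ∧ ‖χ sg - 1‖ < 1 / 2}.ncard : ℂ)‖ < 1 / 2 := by
    intro w hw hD
    obtain ⟨S, hS, hcard, hsum⟩ := G.sheets_fibre x hD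
    have hset : {χ : Pt B | proj G.y χ = w ∧ ‖χ sg - 1‖ < 1 / 2} =
        ((S.filter fun χ => ‖χ sg - 1‖ < 1 / 2 : Finset (Pt B)) : Set (Pt B)) := by
      ext χ
      simp [hS]
    rw [hset, Set.ncard_coe_finset]
    set N := (S.filter fun χ => ‖χ sg - 1‖ < 1 / 2).card with hN
    have hw1 : nq w < ρ₁ ^ 2 := hw.trans_le (by
      gcongr; exact (min_le_left _ _).trans (min_le_left _ _))
    have hwδ : ‖w‖ < δ := sheets_norm_lt hδ (hw.trans_le (by
      gcongr; exact (min_le_left _ _).trans (min_le_right _ _)))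
    have ht0 : 0 ≤ √(nq w) := Real.sqrt_nonneg _
    have htρ : √(nq w) < ρ := by rwa [Real.sqrt_lt' hρ0]
    have ht1 : √(nq w) ≤ 1 := htρ.le.trans ((min_le_right _ _).trans (min_le_left _ _))
    have ht2 : √(nq w) < ρ₂ := htρ.trans_le ((min_le_right _ _).trans (min_le_right _ _))
    have htm : √(nq w) ^ m ≤ √(nq w) := by
      calc √(nq w) ^ m ≤ √(nq w) ^ 1 := pow_le_pow_of_le_one ht0 ht1 hm
        _ = √(nq w) := pow_one _
    have herr : ∀ χ ∈ S, ‖χ sg - (if ‖χ sg - 1‖ < 1 / 2 then 1 else 0)‖ ≤ C' * √(nq w) := by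
      intro χ hχ
      have hp : proj G.y χ = w := (hS χ).1 hχ
      have h2 : C * √(nq w) ^ m ≤ C' * √(nq w) := by
        have h3 : C ≤ C' := (le_abs_self C).trans (by rw [hC']; linarith)
        calc C * √(nq w) ^ m ≤ C' * √(nq w) ^ m := by gcongr
          _ ≤ C' * √(nq w) := by gcongr
      have h4 := hC χ (by rw [hp]; exact hw1)
      rw [hp] at h4
      rcases h4 with ⟨h5, h6⟩ | ⟨h5, h6⟩
      · rw [if_pos (by linarith)]
        exact h6.trans h2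
      · rw [if_neg, sub_zero]
        · exact h6.trans h2
        · intro h7
          have h8 : (1 : ℝ) ≤ ‖χ sg‖ + ‖χ sg - 1‖ := by
            calc (1 : ℝ) = ‖χ sg - (χ sg - 1)‖ := by simp
              _ ≤ _ := norm_sub_le _ _
          linarith
    have hsub : ‖τ w - N‖ ≤ d * (C' * √(nq w)) := by
      have h3 : τ w - N = ∑ χ ∈ S, (χ sg - (if ‖χ sg - 1‖ < 1 / 2 then 1 else 0)) := by
        rw [Finset.sum_sub_distrib, hsum sg, Finset.sum_boole, hτ, hN]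
      rw [h3]
      refine (norm_sum_le _ _).trans ((Finset.sum_le_sum herr).trans ?_)
      rw [Finset.sum_const, hcard, nsmul_eq_mul]
    have hlt : d * (C' * √(nq w)) < 1 / 4 := by
      have h3 : √(nq w) * (4 * (d + 1) * C') < 1 := by
        rwa [hρ₂, lt_div_iff₀ (by positivity)] at ht2
      nlinarith [mul_nonneg hC'0.le ht0]
    have hτ0 : ‖τ w - τ 0‖ < 1 / 4 := by
      have h3 := hδτ (x := w) (by rwa [dist_zero_right])
      rwa [dist_eq_norm] at h3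
    calc ‖τ 0 - (N : ℂ)‖ = ‖(τ w - N) - (τ w - τ 0)‖ := by
          congr 1; ring
      _ ≤ _ := norm_sub_le _ _
      _ < 1 / 2 := by linarith
  by_cases hex : ∃ w : Fin n → ℂ, nq w < ρ ^ 2 ∧ eval w G.D ≠ 0
  · obtain ⟨w₁, hw₁, hD₁⟩ := hex
    refine ⟨{χ : Pt B | proj G.y χ = w₁ ∧ ‖χ sg - 1‖ < 1 / 2}.ncard, ρ, hρ0,
      fun w hw hD => ?_⟩
    set N := {χ : Pt B | proj G.y χ = w ∧ ‖χ sg - 1‖ < 1 / 2}.ncard
    set N₁ := {χ : Pt B | proj G.y χ = w₁ ∧ ‖χ sg - 1‖ < 1 / 2}.ncard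
    have h1 := key w hw hD
    have h2 := key w₁ hw₁ hD₁
    have hfin : ‖((N : ℤ) : ℂ) - ((N₁ : ℤ) : ℂ)‖ < 1 := by
      calc ‖((N : ℤ) : ℂ) - ((N₁ : ℤ) : ℂ)‖ = ‖(τ 0 - (N₁ : ℂ)) - (τ 0 - (N : ℂ))‖ := by
            congr 1; push_cast; ring
        _ ≤ _ := norm_sub_le _ _
        _ < 1 := by linarith
    rw [← Int.cast_sub, Complex.norm_intCast] at hfin
    have h3 : |(N : ℤ) - (N₁ : ℤ)| < 1 := by exact_mod_cast hfin
    rw [Int.abs_lt_one_iff] at h3
    omega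
  · exact ⟨0, ρ, hρ0, fun w hw hD => absurd ⟨w, hw, hD⟩ hex⟩

/-- there are points outside of the discriminant near `0`. -/
theorem sheets_eval_ne {n : ℕ} {p : MvPolynomial (Fin n) ℂ} (hp : p ≠ 0) {ρ : ℝ} (hρ : 0 < ρ) :
    ∃ w : Fin n → ℂ, nq w < ρ ^ 2 ∧ eval w p ≠ 0 := by
  by_contra! hcon
  apply hp
  have hδ : 0 < ρ / (n + 1) := by positivity
  refine MvPolynomial.funext_set (s := fun _ => Metric.ball (0 : ℂ) (ρ / (n + 1))) (fun _ => ?_)
    fun w hw => ?_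
  · exact infinite_of_mem_nhds (0 : ℂ) (Metric.ball_mem_nhds _ hδ)
  · rw [map_zero]
    refine hcon w ?_
    have hj : ∀ j, ‖w j‖ < ρ / (n + 1) := fun j => by
      have := hw j (mem_univ j)
      rwa [Metric.mem_ball, dist_zero_right] at this
    have h3 : nq w ≤ ∑ _j : Fin n, (ρ / (n + 1)) ^ 2 :=
      Finset.sum_le_sum fun j _ => by
        have := (hj j).le
        gcongr
    rw [Finset.sum_const, Finset.card_univ, Fintype.card_fin, nsmul_eq_mul] at h3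
    refine h3.trans_lt ?_
    rw [div_pow, ← mul_div_assoc, div_lt_iff₀ (by positivity)]
    nlinarith [sq_pos_of_pos hρ, sq_nonneg (n:ℝ), (Nat.cast_nonneg n : (0:ℝ) ≤ n)]

/-- a polynomial is bounded below by a power of `t` along the line through `v`. -/
theorem sheets_low_aux {n : ℕ} {p : MvPolynomial (Fin n) ℂ} {v : Fin n → ℂ} (hv : eval v p ≠ 0) :
    ∃ (K : ℕ) (c t₀ : ℝ), 0 < c ∧ 0 < t₀ ∧ ∀ t : ℝ, 0 < t → t < t₀ →
      c * √(nq ((t : ℂ) • v)) ^ K ≤ ‖eval ((t : ℂ) • v) p‖ ∧ eval ((t : ℂ) • v) p ≠ 0 := by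
  set f : Polynomial ℂ := aeval (fun j => Polynomial.C (v j) * Polynomial.X) p with hf
  have hev : ∀ t : ℂ, f.eval t = eval (t • v) p := by
    intro t
    have h1 : (Polynomial.aeval t : Polynomial ℂ →ₐ[ℂ] ℂ) f =
        aeval (fun j => Polynomial.aeval t (Polynomial.C (v j) * Polynomial.X)) p := by
      rw [hf, ← MvPolynomial.comp_aeval_apply]
    rw [Polynomial.coe_aeval_eq_eval] at h1
    rw [h1, MvPolynomial.aeval_eq_eval]
    have h2 : (fun j => Polynomial.eval t (Polynomial.C (v j) * Polynomial.X)) = t • v := by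
      funext j
      rw [Polynomial.eval_mul, Polynomial.eval_C, Polynomial.eval_X, mul_comm, Pi.smul_apply,
        smul_eq_mul]
    rw [h2]
  have hf0 : f ≠ 0 := by
    intro h
    have := hev 1
    rw [h, Polynomial.eval_zero, one_smul] at this
    exact hv this.symm
  obtain ⟨g, hg, hdvd⟩ := Polynomial.exists_eq_pow_rootMultiplicity_mul_and_not_dvd f hf0 0
  set K := Polynomial.rootMultiplicity 0 f with hK
  have hg0 : g.eval 0 ≠ 0 := fun h => hdvd (by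
    rw [Polynomial.dvd_iff_isRoot]
    exact h)
  have hcont : ContinuousAt (fun t : ℂ => g.eval t) 0 := g.continuous.continuousAt
  obtain ⟨δ, hδ, hδg⟩ := Metric.continuousAt_iff.1 hcont (‖g.eval 0‖ / 2)
    (by have := norm_pos_iff.2 hg0; positivity)
  have hn0 : 0 < ‖g.eval 0‖ := norm_pos_iff.2 hg0
  set a : ℝ := √(nq v) with ha
  have ha0 : 0 ≤ a := Real.sqrt_nonneg _
  refine ⟨K, ‖g.eval 0‖ / 2 / (a + 1) ^ K, δ, by positivity, hδ, fun t ht0 ht => ?_⟩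
  have htn : ‖(t : ℂ)‖ = t := by rw [Complex.norm_real, Real.norm_of_nonneg ht0.le]
  have h1 := hδg (x := (t : ℂ)) (by rw [dist_zero_right, htn]; exact ht)
  rw [dist_eq_norm] at h1
  have h2 : ‖g.eval 0‖ / 2 ≤ ‖g.eval (t : ℂ)‖ := by
    have h3 : ‖g.eval 0‖ ≤ ‖g.eval (t : ℂ)‖ + ‖g.eval (t : ℂ) - g.eval 0‖ := by
      calc ‖g.eval 0‖ = ‖g.eval (t : ℂ) - (g.eval (t : ℂ) - g.eval 0)‖ := by simp
        _ ≤ _ := norm_sub_le _ _
    linarith
  have h4 : eval ((t : ℂ) • v) p = (t : ℂ) ^ K * g.eval (t : ℂ) := by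
    rw [← hev]
    conv_lhs => rw [hg]
    simp
  have h5 : √(nq ((t : ℂ) • v)) = t * a := by
    have : nq ((t : ℂ) • v) = t ^ 2 * nq v := by
      simp only [nq, Pi.smul_apply, smul_eq_mul, norm_mul, htn, mul_pow, Finset.mul_sum]
    rw [this, Real.sqrt_mul (by positivity), Real.sqrt_sq ht0.le]
  refine ⟨?_, ?_⟩
  · rw [h4, norm_mul, norm_pow, htn, h5]
    calc ‖g.eval 0‖ / 2 / (a + 1) ^ K * (t * a) ^ K
        ≤ ‖g.eval 0‖ / 2 / (a + 1) ^ K * (t * (a + 1)) ^ K := by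
          gcongr
          linarith
      _ = t ^ K * (‖g.eval 0‖ / 2) := by
          rw [mul_pow]
          have : (a + 1) ^ K ≠ 0 := by positivity
          field_simp
      _ ≤ t ^ K * ‖g.eval (t : ℂ)‖ := by gcongr
  · rw [h4]
    have h6 : g.eval (t : ℂ) ≠ 0 := by
      rw [← norm_pos_iff]
      linarith
    have h7 : (t : ℂ) ≠ 0 := by exact_mod_cast ht0.ne'
    exact mul_ne_zero (pow_ne_zero _ h7) h6

/-- a polynomial is bounded below by a power of `t` along the line through `v`. -/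
theorem sheets_low {n : ℕ} {p : MvPolynomial (Fin n) ℂ} {v : Fin n → ℂ} (hv : eval v p ≠ 0) :
    ∃ (K : ℕ) (c t₀ : ℝ), 0 < c ∧ 0 < t₀ ∧ ∀ t : ℝ, 0 < t → t < t₀ →
      c * √(nq ((t : ℂ) • v)) ^ K ≤ ‖eval ((t : ℂ) • v) p‖ := by
  obtain ⟨K, c, t₀, hc, ht₀, h⟩ := sheets_low_aux hv
  exact ⟨K, c, t₀, hc, ht₀, fun t h1 h2 => (h t h1 h2).1⟩

theorem exists_pts {n d : ℕ} {B : Type} [CommRing B] [IsDomain B] [Algebra ℂ B]
    (G : Germ n d B) (x : Pt B) (_hx : proj G.y x = 0) {sg : B} {m : ℕ} (hm : 1 ≤ m)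
    (h : IsSep G x m sg) {e : ℕ} (he : IsNum G sg e) (h2 : 2 ≤ e) : Nonempty (Pts G x) := by
  obtain ⟨ρ₀, hρ₀, hsh⟩ := he
  obtain ⟨v, -, hv⟩ := sheets_eval_ne G.D_ne (ρ := 1) one_pos
  obtain ⟨K, c, t₀, hc, ht₀, hlow⟩ := sheets_low_aux hv
  set a : ℝ := √(nq v) with ha
  have ha0 : 0 ≤ a := Real.sqrt_nonneg _
  set t₁ : ℝ := min t₀ (ρ₀ / (a + 1)) with ht₁
  have ht₁0 : 0 < t₁ := by positivity
  have key : ∀ ν : ℕ, ∃ (q : Fin n → ℂ) (p p' : Pt B), nq q < (ρ₀ / (ν + 1)) ^ 2 ∧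
      eval q G.D ≠ 0 ∧ proj G.y p = q ∧ proj G.y p' = q ∧ p ≠ p' ∧ ‖p sg - 1‖ < 1 / 2 ∧
      ‖p' sg - 1‖ < 1 / 2 ∧ c * √(nq q) ^ K ≤ ‖eval q G.D‖ := by
    intro ν
    set t : ℝ := t₁ / (ν + 2) with ht
    have hν : (0 : ℝ) ≤ ν := Nat.cast_nonneg ν
    have ht0 : 0 < t := by positivity
    have htt : t < t₀ := by
      refine lt_of_lt_of_le ?_ (min_le_left t₀ (ρ₀ / (a + 1)))
      rw [ht, div_lt_iff₀ (by positivity)]
      nlinarith
    obtain ⟨hq1, hD⟩ := hlow t ht0 htt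
    have htn : ‖(t : ℂ)‖ = t := by rw [Complex.norm_real, Real.norm_of_nonneg ht0.le]
    have hnq : nq ((t : ℂ) • v) = (t * a) ^ 2 := by
      have : nq ((t : ℂ) • v) = t ^ 2 * nq v := by
        simp only [nq, Pi.smul_apply, smul_eq_mul, norm_mul, htn, mul_pow, Finset.mul_sum]
      rw [this, mul_pow, ha, Real.sq_sqrt]
      exact Finset.sum_nonneg fun j _ => by positivity
    have hq : nq ((t : ℂ) • v) < (ρ₀ / (ν + 1)) ^ 2 := by
      rw [hnq]
      have h3 : t * a < ρ₀ / (ν + 1) := by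
        have h4 : t₁ * (a + 1) ≤ ρ₀ := by
          have := min_le_right t₀ (ρ₀ / (a + 1))
          rwa [← ht₁, le_div_iff₀ (by positivity)] at this
        rw [lt_div_iff₀ (by positivity)]
        have h5 : t * (ν + 1) ≤ t₁ := by
          rw [ht, div_mul_eq_mul_div, div_le_iff₀ (by positivity)]
          nlinarith
        calc t * a * (ν + 1) = t * (ν + 1) * a := by ring
          _ ≤ t₁ * a := by gcongr
          _ < t₁ * (a + 1) := by nlinarith
          _ ≤ ρ₀ := h4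
      gcongr
    have hq' : nq ((t : ℂ) • v) < ρ₀ ^ 2 := hq.trans_le (by
      gcongr
      exact div_le_self hρ₀.le (by linarith))
    have hc' := hsh _ hq' hD
    have h3 : 1 < {χ : Pt B | proj G.y χ = (t : ℂ) • v ∧ ‖χ sg - 1‖ < 1 / 2}.ncard := by
      rw [hc']; omega
    obtain ⟨p, p', hp, hp', hne⟩ :=
      (Set.one_lt_ncard_iff (Set.finite_of_ncard_pos (zero_lt_one.trans h3))).1 h3
    exact ⟨_, p, p', hq, hD, hp.1, hp'.1, hne, hp.2, hp'.2, hq1⟩
  choose q p p' hq hD hp hp' hne hps hps' hql using key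
  have hqt : Tendsto q atTop (nhds 0) := by
    rw [tendsto_zero_iff_norm_tendsto_zero]
    refine squeeze_zero (fun _ => norm_nonneg _) (g := fun ν : ℕ => ρ₀ / (ν + 1))
      (fun ν => (sheets_norm_lt (by positivity) (hq ν)).le) ?_
    have := (tendsto_one_div_add_atTop_nhds_zero_nat (𝕜 := ℝ)).const_mul ρ₀
    simpa only [mul_one_div, mul_zero] using this
  have hpt : ∀ (r : ℕ → Pt B), (∀ ν, proj G.y (r ν) = q ν) → (∀ ν, ‖r ν sg - 1‖ < 1 / 2) →
      ∀ b, Tendsto (fun ν => r ν b) atTop (nhds (x b)) := by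
    intro r hr hrs b
    rw [Metric.tendsto_atTop]
    intro ε hε
    obtain ⟨ρ, hρ, hU⟩ := h.tends hm b hε
    obtain ⟨N, hN⟩ := exists_nat_gt (ρ₀ / ρ)
    refine ⟨N, fun ν hν => ?_⟩
    rw [dist_eq_norm]
    refine hU _ ⟨?_, hrs ν⟩
    rw [hr]
    refine (hq ν).trans_le ?_
    have h3 : (N : ℝ) ≤ ν := by exact_mod_cast hν
    have h4 : ρ₀ / (ν + 1) ≤ ρ := by
      rw [div_le_iff₀ (by positivity)]
      rw [div_lt_iff₀ hρ] at hN
      nlinarith
    gcongr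
  exact ⟨⟨q, ![p, p'], by
      intro i ν
      fin_cases i
      · exact hp ν
      · exact hp' ν, hD, hne, hqt, by
      intro i b
      fin_cases i
      · exact hpt p hp hps b
      · exact hpt p' hp' hps' b, ⟨K, c, hc, hql⟩⟩⟩

end Pool.Agent.Odp3
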