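import Pool.Agent.Odp3.Defs

/-!
# Local holomorphic sections of `X → ℂ^n` outside the discriminant
-/

open scoped ContDiff Topology ENNReal NNReal WithZero
open Set MeasureTheory Filter MvPolynomial Pool.Agent.ODP

namespace Pool.Agent.Odp3

section Alg

variable {n d : ℕ} {B : Type} [CommRing B] [Algebra ℂ B]

theorem sect_aeval (y : Fin n → B) (χ : Pt B) (p : MvPolynomial (Fin n) ℂ) :
    χ (aeval y p) = eval (proj y χ) p := by
  have h : χ.comp (aeval y) = aeval (proj y χ) := by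
    ext j
    simp [proj]
  have h2 := congrArg (fun f : MvPolynomial (Fin n) ℂ →ₐ[ℂ] ℂ => f p) h
  simpa [coe_aeval_eq_eval] using h2

/-- the fibre over a point outside the discriminant -/
theorem sect_enum (G : Germ n d B) {w : Fin n → ℂ} (hw : eval w G.D ≠ 0) :
    ∃ f : Fin d → Pt B, Function.Injective f ∧ (∀ i, proj G.y (f i) = w) ∧
      ∀ χ : Pt B, proj G.y χ = w → ∃ i, f i = χ := by
  classical
  have hc := G.card w hw
  by_cases hd : d = 0
  · subst hd
    refine ⟨fun i => i.elim0, fun i => i.elim0, fun i => i.elim0, fun χ hχ => ?_⟩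
    exfalso
    have h1 := congrArg χ (G.spec 1)
    rw [mul_one, map_sum, sect_aeval, hχ] at h1
    simp at h1
    exact hw h1
  · have hfin : {χ : Pt B | proj G.y χ = w}.Finite := by
      apply Set.finite_of_ncard_ne_zero
      rw [hc]
      exact hd
    have hcard : hfin.toFinset.card = d := by
      rw [← Set.ncard_eq_toFinset_card _ hfin]
      exact hc
    let e := hfin.toFinset.equivFinOfCardEq hcard
    refine ⟨fun i => (e.symm i : Pt B), ?_, ?_, ?_⟩
    · intro i j hij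
      exact e.symm.injective (Subtype.ext hij)
    · intro i
      have := (e.symm i).2
      rw [Set.Finite.mem_toFinset] at this
      exact this
    · intro χ hχ
      refine ⟨e ⟨χ, ?_⟩, ?_⟩
      · rw [Set.Finite.mem_toFinset]
        exact hχ
      · simp

/-- the matrix of the multiplication by `b` at `w` -/
noncomputable def sMat (G : Germ n d B) (b : B) (w : Fin n → ℂ) : Matrix (Fin d) (Fin d) ℂ :=
  Matrix.of fun j k => (eval w G.D)⁻¹ * eval w (G.cf (b * G.e j) k)

/-- the matrix of the values of the basis -/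
noncomputable def sV (G : Germ n d B) (f : Fin d → Pt B) : Matrix (Fin d) (Fin d) ℂ :=
  Matrix.of fun k i => f i (G.e k)

/-- the matrix of the values of the dual basis -/
noncomputable def sW (G : Germ n d B) (f : Fin d → Pt B) : Matrix (Fin d) (Fin d) ℂ :=
  Matrix.of fun i k => f i (G.du k)

theorem sW_mul_sV (G : Germ n d B) {w : Fin n → ℂ} (hw : eval w G.D ≠ 0) {f : Fin d → Pt B}
    (hf : Function.Injective f) (hfw : ∀ i, proj G.y (f i) = w) :
    sW G f * sV G f = (eval w G.D) • (1 : Matrix (Fin d) (Fin d) ℂ) := by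
  ext i j
  rw [Matrix.mul_apply]
  show ∑ k, f i (G.du k) * f j (G.e k) = _
  have h := G.du_spec w hw (f i) (f j) (hfw i) (hfw j)
  rw [Matrix.smul_apply, smul_eq_mul]
  by_cases hij : i = j
  · subst hij
    rw [h.1 rfl, Matrix.one_apply_eq, mul_one]
  · rw [h.2 (fun h' => hij (hf h')), Matrix.one_apply_ne hij, mul_zero]

theorem det_sV_ne (G : Germ n d B) {w : Fin n → ℂ} (hw : eval w G.D ≠ 0) {f : Fin d → Pt B}
    (hf : Function.Injective f) (hfw : ∀ i, proj G.y (f i) = w) : (sV G f).det ≠ 0 := by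
  intro h
  have h1 := congrArg Matrix.det (sW_mul_sV G hw hf hfw)
  rw [Matrix.det_mul, h, mul_zero, Matrix.det_smul, Matrix.det_one, mul_one] at h1
  exact pow_ne_zero _ hw h1.symm

theorem sMat_mul_sV (G : Germ n d B) (b : B) {w : Fin n → ℂ} (hw : eval w G.D ≠ 0)
    {f : Fin d → Pt B} (hfw : ∀ i, proj G.y (f i) = w) :
    sMat G b w * sV G f = sV G f * Matrix.diagonal fun i => f i b := by
  ext j i
  rw [Matrix.mul_apply, Matrix.mul_diagonal]
  show ∑ k, (eval w G.D)⁻¹ * eval w (G.cf (b * G.e j) k) * f i (G.e k) = f i (G.e j) * f i b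
  have h1 := congrArg (f i) (G.spec (b * G.e j))
  rw [map_sum, map_mul, sect_aeval, hfw, map_mul] at h1
  have h2 : f i (G.e j) * f i b = (eval w G.D)⁻¹ * (eval w G.D * (f i b * f i (G.e j))) := by
    rw [inv_mul_cancel_left₀ hw, mul_comm]
  rw [h2, h1, Finset.mul_sum]
  refine Finset.sum_congr rfl fun k _ => ?_
  rw [map_mul, sect_aeval, hfw, mul_assoc]
  rfl

theorem sMat_sub_mul_sV (G : Germ n d B) (b : B) (T : ℂ) {w : Fin n → ℂ} (hw : eval w G.D ≠ 0)
    {f : Fin d → Pt B} (hfw : ∀ i, proj G.y (f i) = w) :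
    (T • 1 - sMat G b w) * sV G f = sV G f * Matrix.diagonal fun i => T - f i b := by
  rw [sub_mul, sMat_mul_sV G b hw hfw]
  have h : (Matrix.diagonal fun i => T - f i b) =
      T • (1 : Matrix (Fin d) (Fin d) ℂ) - Matrix.diagonal fun i => f i b := by
    ext i j
    by_cases hij : i = j
    · subst hij
      simp
    · simp [hij]
  rw [h, mul_sub]
  congr 1
  simp

theorem det_sMat (G : Germ n d B) (b : B) (T : ℂ) {w : Fin n → ℂ} (hw : eval w G.D ≠ 0)
    {f : Fin d → Pt B} (hf : Function.Injective f) (hfw : ∀ i, proj G.y (f i) = w) :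
    (T • 1 - sMat G b w).det = ∏ i, (T - f i b) := by
  have h := congrArg Matrix.det (sMat_sub_mul_sV G b T hw hfw)
  rw [Matrix.det_mul, Matrix.det_mul, mul_comm, Matrix.det_diagonal] at h
  exact mul_left_cancel₀ (det_sV_ne G hw hf hfw) h

theorem trace_sMat (G : Germ n d B) (b s : B) (T : ℂ) {w : Fin n → ℂ} (hw : eval w G.D ≠ 0)
    {f : Fin d → Pt B} (hf : Function.Injective f) (hfw : ∀ i, proj G.y (f i) = w) :
    (sMat G b w * (T • 1 - sMat G s w).adjugate).trace =
      ∑ i, f i b * ∏ j ∈ Finset.univ.erase i, (T - f j s) := by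
  have hdet := det_sV_ne G hw hf hfw
  apply mul_left_cancel₀ hdet
  have h1 := congrArg Matrix.adjugate (sMat_sub_mul_sV G s T hw hfw)
  rw [Matrix.adjugate_mul_distrib, Matrix.adjugate_mul_distrib, Matrix.adjugate_diagonal] at h1
  -- multiply by `V` on the left
  have h2 : (sV G f).det • (T • 1 - sMat G s w).adjugate =
      sV G f * ((Matrix.diagonal fun i => ∏ j ∈ Finset.univ.erase i, (T - f j s)) *
        (sV G f).adjugate) := by
    rw [← h1, ← mul_assoc, Matrix.mul_adjugate, Matrix.smul_mul, one_mul]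
  have h3 : (sV G f).det * (sMat G b w * (T • 1 - sMat G s w).adjugate).trace =
      (sMat G b w * ((sV G f).det • (T • 1 - sMat G s w).adjugate)).trace := by
    rw [Matrix.mul_smul, Matrix.trace_smul, smul_eq_mul]
  rw [h3, h2, ← mul_assoc, sMat_mul_sV G b hw hfw, mul_assoc, Matrix.trace_mul_comm, mul_assoc,
    mul_assoc, Matrix.adjugate_mul, ← mul_assoc, Matrix.diagonal_mul_diagonal, Matrix.mul_smul,
    mul_one, Matrix.trace_smul, Matrix.trace_diagonal, smul_eq_mul]

end Alg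

section An

variable {n d : ℕ} {B : Type} [CommRing B] [Algebra ℂ B]

theorem sect_contDiff_eval (p : MvPolynomial (Fin n) ℂ) {m : ℕ∞ω} :
    ContDiff ℂ m fun w : Fin n → ℂ => eval w p := by
  have h : AnalyticOnNhd ℂ (fun w : Fin n → ℂ => eval w p) Set.univ :=
    AnalyticOnNhd.eval_mvPolynomial p
  rw [← contDiffOn_univ]
  exact h.contDiffOn uniqueDiffOn_univ

theorem sect_contDiffOn_det {E : Type*} [NormedAddCommGroup E] [NormedSpace ℂ E] {k : ℕ}
    {A : E → Matrix (Fin k) (Fin k) ℂ} {Ω : Set E} {m : ℕ∞ω}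
    (h : ∀ i j, ContDiffOn ℂ m (fun w => A w i j) Ω) : ContDiffOn ℂ m (fun w => (A w).det) Ω := by
  simp only [Matrix.det_apply']
  refine ContDiffOn.sum fun σ _ => ?_
  exact contDiffOn_const.mul (contDiffOn_prod fun i _ => h _ _)

theorem sect_contDiffOn_adjugate {E : Type*} [NormedAddCommGroup E] [NormedSpace ℂ E] {k : ℕ}
    {A : E → Matrix (Fin k) (Fin k) ℂ} {Ω : Set E} {m : ℕ∞ω}
    (h : ∀ i j, ContDiffOn ℂ m (fun w => A w i j) Ω) (i j : Fin k) :
    ContDiffOn ℂ m (fun w => (A w).adjugate i j) Ω := by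
  simp only [Matrix.adjugate_apply]
  refine sect_contDiffOn_det fun a b => ?_
  by_cases ha : a = j
  · subst ha
    simp only [Matrix.updateRow_self]
    exact contDiffOn_const
  · simp only [Matrix.updateRow_ne ha]
    exact h a b

/-- the characteristic polynomial -/
noncomputable def sF (G : Germ n d B) (s : B) (p : (Fin n → ℂ) × ℂ) : ℂ :=
  (p.2 • (1 : Matrix (Fin d) (Fin d) ℂ) - sMat G s p.1).det

theorem sect_isOpen (G : Germ n d B) :
    IsOpen {p : (Fin n → ℂ) × ℂ | eval p.1 G.D ≠ 0} :=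
  isOpen_ne_fun ((MvPolynomial.continuous_eval G.D).comp continuous_fst) continuous_const

theorem sF_contDiff (G : Germ n d B) (s : B) {m : ℕ∞ω} :
    ContDiffOn ℂ m (sF G s) {p | eval p.1 G.D ≠ 0} := by
  refine sect_contDiffOn_det fun i j => ?_
  show ContDiffOn ℂ m (fun p : (Fin n → ℂ) × ℂ => p.2 * (1 : Matrix (Fin d) (Fin d) ℂ) i j -
    (eval p.1 G.D)⁻¹ * eval p.1 (G.cf (s * G.e i) j)) {p | eval p.1 G.D ≠ 0}
  have h1 : ContDiffOn ℂ m (fun p : (Fin n → ℂ) × ℂ => (eval p.1 G.D)⁻¹)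
      {p | eval p.1 G.D ≠ 0} :=
    ContDiffOn.inv ((sect_contDiff_eval G.D).comp contDiff_fst).contDiffOn fun p hp => hp
  exact (contDiff_snd.mul contDiff_const).contDiffOn.sub
    (h1.mul ((sect_contDiff_eval (G.cf (s * G.e i) j)).comp contDiff_fst).contDiffOn)

/-- the root of the characteristic polynomial -/
theorem sect_root (G : Germ n d B) (s : B) {w₀ : Fin n → ℂ} (hw : eval w₀ G.D ≠ 0)
    {f : Fin d → Pt B} (hf : Function.Injective f) (hfw : ∀ i, proj G.y (f i) = w₀)
    (hs : Function.Injective fun i => f i s) (i : Fin d) :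
    ∃ ψ : (Fin n → ℂ) → ℂ, ContDiffAt ℂ 1 ψ w₀ ∧ ψ w₀ = f i s ∧
      ∀ᶠ w in 𝓝 w₀, sF G s (w, ψ w) = 0 := by
  have h0 : sF G s (w₀, f i s) = 0 := by
    rw [sF, det_sMat G s _ hw hf hfw]
    exact Finset.prod_eq_zero (Finset.mem_univ i) (sub_self _)
  have hcd : ContDiffAt ℂ 1 (sF G s) (w₀, f i s) :=
    (sF_contDiff G s).contDiffAt ((sect_isOpen G).mem_nhds hw)
  have hder : fderiv ℂ (sF G s) (w₀, f i s) (0, 1) ≠ 0 := by
    have h1 : HasFDerivAt (sF G s) (fderiv ℂ (sF G s) (w₀, f i s)) (w₀, f i s) :=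
      (hcd.differentiableAt (by norm_num)).hasFDerivAt
    have h2 : HasDerivAt (fun T : ℂ => (w₀, T)) ((0 : Fin n → ℂ), (1 : ℂ)) (f i s) :=
      (hasDerivAt_const _ _).prodMk (hasDerivAt_id _)
    have h3 := h1.comp_hasDerivAt (f i s) h2
    have h4 : (sF G s ∘ fun T : ℂ => (w₀, T)) = fun T => ∏ j, (T - f j s) := by
      funext T
      exact det_sMat G s T hw hf hfw
    rw [h4] at h3
    have h5 : HasDerivAt (fun T : ℂ => ∏ j, (T - f j s))
        (∏ j ∈ Finset.univ.erase i, (f i s - f j s)) (f i s) := by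
      have h6 : (fun T : ℂ => ∏ j, (T - f j s)) =
          fun T => (T - f i s) * ∏ j ∈ Finset.univ.erase i, (T - f j s) := by
        funext T
        exact (Finset.mul_prod_erase Finset.univ (fun j => T - f j s) (Finset.mem_univ i)).symm
      rw [h6]
      have h7 : HasDerivAt (fun T : ℂ => T - f i s) 1 (f i s) := (hasDerivAt_id _).sub_const _
      have h8 : DifferentiableAt ℂ (fun T : ℂ => ∏ j ∈ Finset.univ.erase i, (T - f j s))
          (f i s) := by fun_prop
      have h9 := h7.fun_mul h8.hasDerivAt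
      simpa using h9
    rw [h3.unique h5]
    refine Finset.prod_ne_zero_iff.2 fun j hj => sub_ne_zero.2 fun h => ?_
    exact (Finset.ne_of_mem_erase hj) (hs h).symm
  have hinv : (fderiv ℂ (sF G s) (w₀, f i s) ∘L .inr ℂ (Fin n → ℂ) ℂ).IsInvertible := by
    set c := fderiv ℂ (sF G s) (w₀, f i s) (0, 1) with hc
    refine ⟨ContinuousLinearEquiv.unitsEquivAut ℂ (Units.mk0 c hder), ?_⟩
    ext
    simp [hc]
  refine ⟨hcd.implicitFunction one_ne_zero hinv, hcd.contDiffAt_implicitFunction one_ne_zero hinv,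
    hcd.implicitFunction_apply_self one_ne_zero hinv, ?_⟩
  have h := hcd.eventually_apply_implicitFunction one_ne_zero hinv
  rw [h0] at h
  exact h

/-- the trace formula is differentiable -/
theorem sect_diff_trace (G : Germ n d B) (b s : B) {Ω : Set (Fin n → ℂ)}
    {ψ : (Fin n → ℂ) → ℂ} (hψ : ContDiffOn ℂ 1 ψ Ω) (hΩ : ∀ w ∈ Ω, eval w G.D ≠ 0) :
    DifferentiableOn ℂ (fun w => (sMat G b w * (ψ w • 1 - sMat G s w).adjugate).trace) Ω := by
  have h0 : ContDiffOn ℂ 1 (fun w => (eval w G.D)⁻¹) Ω :=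
    ContDiffOn.inv (sect_contDiff_eval G.D).contDiffOn hΩ
  have h1 : ∀ i j, ContDiffOn ℂ 1 (fun w => (ψ w • 1 - sMat G s w).adjugate i j) Ω := by
    refine sect_contDiffOn_adjugate fun i j => ?_
    show ContDiffOn ℂ 1 (fun w => ψ w * (1 : Matrix (Fin d) (Fin d) ℂ) i j -
      (eval w G.D)⁻¹ * eval w (G.cf (s * G.e i) j)) Ω
    exact (hψ.mul contDiffOn_const).sub (h0.mul (sect_contDiff_eval _).contDiffOn)
  have h2 : ∀ w, (sMat G b w * (ψ w • 1 - sMat G s w).adjugate).trace =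
      ∑ i, ∑ j, (eval w G.D)⁻¹ * eval w (G.cf (b * G.e i) j) *
        (ψ w • 1 - sMat G s w).adjugate j i := by
    intro w
    simp only [Matrix.trace, Matrix.diag_apply, Matrix.mul_apply]
    rfl
  simp only [h2]
  refine DifferentiableOn.fun_sum fun i _ => DifferentiableOn.fun_sum fun j _ => ?_
  exact ((h0.differentiableOn one_ne_zero).mul
    (((sect_contDiff_eval (m := 1) _).differentiable one_ne_zero).differentiableOn)).mul
    ((h1 j i).differentiableOn one_ne_zero)

theorem Germ.exists_sections (G : Germ n d B)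
    {w₀ : Fin n → ℂ} (h : eval w₀ G.D ≠ 0) :
    ∃ Ω, IsOpen Ω ∧ w₀ ∈ Ω ∧ ∃ s : Fin d → (Fin n → ℂ) → Pt B,
      (∀ i, IsSec G univ Ω (s i)) ∧ (∀ w ∈ Ω, Function.Injective fun i => s i w) ∧
      ∀ w ∈ Ω, ∀ χ : Pt B, proj G.y χ = w → ∃ i, s i w = χ := by
  classical
  obtain ⟨f, hf, hfw, -⟩ := sect_enum G h
  -- an element with distinct values
  set s : B := ∑ i : Fin d, ((i : ℕ) : ℂ) • ((eval w₀ G.D)⁻¹ • ∑ k, f i (G.du k) • G.e k) with hs
  have hfs : ∀ j, f j s = ((j : ℕ) : ℂ) := by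
    intro j
    rw [hs, map_sum]
    have h1 : ∀ i : Fin d, f j (((i : ℕ) : ℂ) • ((eval w₀ G.D)⁻¹ • ∑ k, f i (G.du k) • G.e k)) =
        if i = j then ((j : ℕ) : ℂ) else 0 := by
      intro i
      rw [map_smul, map_smul, map_sum]
      simp only [map_smul, smul_eq_mul]
      have h2 := G.du_spec w₀ h (f i) (f j) (hfw i) (hfw j)
      by_cases hij : i = j
      · subst hij
        rw [h2.1 rfl, inv_mul_cancel₀ h, mul_one, if_pos rfl]
      · rw [h2.2 (fun h' => hij (hf h')), mul_zero, mul_zero, if_neg hij]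
    rw [Finset.sum_congr rfl fun i _ => h1 i, Finset.sum_ite_eq' Finset.univ j,
      if_pos (Finset.mem_univ j)]
  have hinj : Function.Injective fun i => f i s := by
    intro i j hij
    have h1 : ((i : ℕ) : ℂ) = ((j : ℕ) : ℂ) := by
      rw [← hfs, ← hfs]
      exact hij
    exact Fin.ext (Nat.cast_injective h1)
  choose ψ hψ1 hψ2 hψ3 using fun i => sect_root G s h hf hfw hinj i
  have hE : ∀ᶠ w in 𝓝 w₀, eval w G.D ≠ 0 ∧ (∀ i, ContDiffAt ℂ 1 (ψ i) w) ∧
      (∀ i, sF G s (w, ψ i w) = 0) ∧ ∀ i j, i ≠ j → ψ i w ≠ ψ j w := by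
    have h1 : ∀ᶠ w in 𝓝 w₀, eval w G.D ≠ 0 :=
      (MvPolynomial.continuous_eval G.D).continuousAt.eventually_ne h
    have h2 : ∀ᶠ w in 𝓝 w₀, ∀ i, ContDiffAt ℂ 1 (ψ i) w :=
      eventually_all.2 fun i => (hψ1 i).eventually (by norm_num)
    have h3 : ∀ᶠ w in 𝓝 w₀, ∀ i, sF G s (w, ψ i w) = 0 := eventually_all.2 hψ3
    have h4 : ∀ᶠ w in 𝓝 w₀, ∀ i j, i ≠ j → ψ i w ≠ ψ j w := by
      refine eventually_all.2 fun i => eventually_all.2 fun j => ?_
      by_cases hij : i = j
      · exact Eventually.of_forall fun w h' => absurd hij h'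
      · have h5 : ContinuousAt (fun w => ψ i w - ψ j w) w₀ :=
          (hψ1 i).continuousAt.sub (hψ1 j).continuousAt
        have h6 : ψ i w₀ - ψ j w₀ ≠ 0 := by
          rw [hψ2, hψ2]
          exact sub_ne_zero.2 fun h' => hij (hinj h')
        filter_upwards [h5.eventually_ne h6] with w hw _
        exact sub_ne_zero.1 hw
    filter_upwards [h1, h2, h3, h4] with w a b c e
    exact ⟨a, b, c, e⟩
  obtain ⟨Ω, hΩ, hΩo, hw₀⟩ := mem_nhds_iff.1 hE
  have hex : ∀ i w, ∃ χ : Pt B, w ∈ Ω → proj G.y χ = w ∧ χ s = ψ i w := by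
    intro i w
    by_cases hw : w ∈ Ω
    · obtain ⟨h1, h2, h3, h4⟩ := hΩ hw
      obtain ⟨f', hf', hfw', -⟩ := sect_enum G h1
      have h5 := h3 i
      rw [sF, det_sMat G s _ h1 hf' hfw', Finset.prod_eq_zero_iff] at h5
      obtain ⟨k, -, hk⟩ := h5
      exact ⟨f' k, fun _ => ⟨hfw' k, (sub_eq_zero.1 hk).symm⟩⟩
    · exact ⟨f i, fun h' => absurd h' hw⟩
  choose σ hσ using hex
  have hσinj : ∀ w ∈ Ω, Function.Injective fun i => σ i w := by
    intro w hw i j hij
    by_contra hne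
    obtain ⟨-, -, -, h4⟩ := hΩ hw
    apply h4 i j hne
    rw [← (hσ i w hw).2, ← (hσ j w hw).2]
    exact congrArg (fun χ : Pt B => χ s) hij
  refine ⟨Ω, hΩo, hw₀, σ, fun i => ⟨hΩo, fun _ _ => mem_univ _, fun w hw => (hσ i w hw).1, ?_⟩,
    hσinj, ?_⟩
  · intro b
    have hψi : ∀ j, ContDiffOn ℂ 1 (ψ j) Ω := fun j w hw => ((hΩ hw).2.1 j).contDiffWithinAt
    have hκ : ∀ w ∈ Ω, ∏ j ∈ Finset.univ.erase i, (ψ i w - ψ j w) ≠ 0 := fun w hw =>
      Finset.prod_ne_zero_iff.2 fun j hj =>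
        sub_ne_zero.2 ((hΩ hw).2.2.2 i j (Finset.ne_of_mem_erase hj).symm)
    have hformula : ∀ w ∈ Ω, σ i w b =
        (sMat G b w * (ψ i w • 1 - sMat G s w).adjugate).trace /
          ∏ j ∈ Finset.univ.erase i, (ψ i w - ψ j w) := by
      intro w hw
      rw [eq_div_iff (hκ w hw), trace_sMat G b s (ψ i w) (hΩ hw).1 (hσinj w hw)
        (fun k => (hσ k w hw).1), Finset.sum_eq_single i]
      · congr 1
        refine Finset.prod_congr rfl fun j _ => ?_
        rw [(hσ j w hw).2]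
      · intro k _ hk
        have h0 : ∏ j ∈ Finset.univ.erase k, (ψ i w - σ j w s) = 0 := by
          refine Finset.prod_eq_zero (Finset.mem_erase.2 ⟨hk.symm, Finset.mem_univ i⟩) ?_
          rw [(hσ i w hw).2, sub_self]
        rw [h0, mul_zero]
      · intro h'
        exact absurd (Finset.mem_univ i) h'
    refine DifferentiableOn.congr ?_ hformula
    have hd : DifferentiableOn ℂ (fun w => ∏ j ∈ Finset.univ.erase i, (ψ i w - ψ j w)) Ω :=
      (contDiffOn_prod fun j _ => (hψi i).sub (hψi j)).differentiableOn one_ne_zero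
    simp only [div_eq_mul_inv]
    exact (sect_diff_trace G b s (hψi i) fun w hw => (hΩ hw).1).mul (hd.inv hκ)
  · intro w hw χ hχ
    obtain ⟨f', hf', hfw', hf's⟩ := sect_enum G (hΩ hw).1
    -- the map of indices
    have hidx : ∀ i, ∃ k, f' k = σ i w := fun i => hf's _ (hσ i w hw).1
    choose g hg using hidx
    have hginj : Function.Injective g := by
      intro i j hij
      apply hσinj w hw
      show σ i w = σ j w
      rw [← hg i, ← hg j, hij]
    have hgs : Function.Surjective g := Finite.surjective_of_injective hginj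
    obtain ⟨k, hk⟩ := hf's χ hχ
    obtain ⟨i, rfl⟩ := hgs k
    exact ⟨i, by rw [← hg i, hk]⟩

/-- two sections which agree at a point agree near it. -/
theorem IsSec.eventuallyEq {G : Germ n d B}
    {V V' Ω Ω' : Set _} {s s' : (Fin n → ℂ) → Pt B} (h : IsSec G V Ω s) (h' : IsSec G V' Ω' s')
    {w : Fin n → ℂ} (hw : w ∈ Ω) (hw' : w ∈ Ω') (hD : eval w G.D ≠ 0) (he : s w = s' w) :
    s =ᶠ[𝓝 w] s' := by
  have hc : ∀ b, ContinuousAt (fun w => s w b) w := fun b =>
    ((h.holo b).continuousOn).continuousAt (h.isOpen.mem_nhds hw)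
  have hc' : ∀ b, ContinuousAt (fun w => s' w b) w := fun b =>
    ((h'.holo b).continuousOn).continuousAt (h'.isOpen.mem_nhds hw')
  have hsum : ContinuousAt (fun v => ∑ i, s v (G.du i) * s' v (G.e i)) w :=
    tendsto_finsetSum _ fun i _ => (hc (G.du i)).mul (hc' (G.e i))
  have h0 : ∑ i, s w (G.du i) * s' w (G.e i) ≠ 0 := by
    rw [(G.du_spec w hD (s w) (s' w) (h.proj w hw) (h'.proj w hw')).1 he]
    exact hD
  have h1 : ∀ᶠ v in 𝓝 w, eval v G.D ≠ 0 :=
    (MvPolynomial.continuous_eval G.D).continuousAt.eventually_ne hD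
  filter_upwards [hsum.eventually_ne h0, h1, h.isOpen.mem_nhds hw, h'.isOpen.mem_nhds hw']
    with v a b c e
  by_contra hne
  exact a ((G.du_spec v b (s v) (s' v) (h.proj v c) (h'.proj v e)).2 hne)

end An

end Pool.Agent.Odp3
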